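import Pool.Agent.H64.G.R_seed8.Helper188.Morrey.Basic
import Pool.Agent.H64.G.T9f66d723.W5h27.MO.Mor

/-!
# Rank-one convex functions of degree two on the `2 × 2` matrices lie above a multiple of `det`
-/

set_option autoImplicit false

open Matrix Set Filter Topology MeasureTheory
open Pool.Agent.Helper188.Morrey (RankOneConvex rank_eq_one_of_det det_eq_zero_of_rank cont_step)

namespace Pool.Agent.H64.TH

abbrev M2 := Matrix (Fin 2) (Fin 2) ℝ

/-- the square of the Frobenius norm -/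
def N (F : M2) : ℝ := F 0 0 ^ 2 + F 0 1 ^ 2 + F 1 0 ^ 2 + F 1 1 ^ 2

theorem N_smul (c : ℝ) (F : M2) : N (c • F) = c ^ 2 * N F := by
  simp only [N, Matrix.smul_apply, smul_eq_mul]
  ring

theorem N_nonneg (F : M2) : 0 ≤ N F := by
  unfold N
  positivity

theorem N_continuous : Continuous N := by
  unfold N
  fun_prop

theorem N_eq_zero {F : M2} (h : N F = 0) : F = 0 := by
  unfold N at h
  have h1 : F 0 0 = 0 := by nlinarith [sq_nonneg (F 0 0), sq_nonneg (F 0 1), sq_nonneg (F 1 0), sq_nonneg (F 1 1)]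
  have h2 : F 0 1 = 0 := by nlinarith [sq_nonneg (F 0 0), sq_nonneg (F 0 1), sq_nonneg (F 1 0), sq_nonneg (F 1 1)]
  have h3 : F 1 0 = 0 := by nlinarith [sq_nonneg (F 0 0), sq_nonneg (F 0 1), sq_nonneg (F 1 0), sq_nonneg (F 1 1)]
  have h4 : F 1 1 = 0 := by nlinarith [sq_nonneg (F 0 0), sq_nonneg (F 0 1), sq_nonneg (F 1 0), sq_nonneg (F 1 1)]
  ext i j
  fin_cases i <;> fin_cases j <;> simp [h1, h2, h3, h4]

/-- a rank-one convex function vanishing at `0` with `W(rF) ≤ r² W(F)` is nonnegative on the singular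
matrices -/
theorem nonneg_of_det {W : M2 → ℝ} (hW : RankOneConvex W) (h0 : W 0 = 0)
    (hr : ∀ r : ℝ, 0 < r → r < 1 → ∀ F, W (r • F) ≤ r ^ 2 * W F) {F : M2} (hF : F.det = 0) :
    0 ≤ W F := by
  have key : ∀ r : ℝ, 0 < r → r < 1 → 0 ≤ r * W (-F) + W F := by
    intro r h1 h2
    have hs : 0 < 1 + r := by linarith
    have h := hW.seg (-(r • F)) ((1 + r) • F) (by rw [det_smul, hF, mul_zero])
      (t := r / (1 + r)) (by positivity) (by rw [div_le_one hs]; linarith)
    have e1 : -(r • F) + (r / (1 + r)) • (1 + r) • F = 0 := by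
      rw [smul_smul, div_mul_cancel₀ _ hs.ne']
      simp
    have e2 : -(r • F) + (1 + r) • F = F := by module
    have e3 : -(r • F) = r • (-F) := by simp
    rw [e1, e2, h0, e3] at h
    have h3 := hr r h1 h2 (-F)
    have e4 : (1 - r / (1 + r)) * W (r • -F) + r / (1 + r) * W F
        = (W (r • -F) + r * W F) / (1 + r) := by
      field_simp
      ring
    rw [e4, le_div_iff₀ hs, zero_mul] at h
    have h5 : 0 ≤ r * (r * W (-F) + W F) := by nlinarith
    exact nonneg_of_mul_nonneg_right h5 h1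
  have hlim : Tendsto (fun r : ℝ => r * W (-F) + W F) (𝓝[>] 0) (𝓝 (0 * W (-F) + W F)) := by
    have : Continuous (fun r : ℝ => r * W (-F) + W F) := by fun_prop
    exact (this.tendsto 0).mono_left nhdsWithin_le_nhds
  have h := ge_of_tendsto hlim (b := 0) (by
    filter_upwards [Ioo_mem_nhdsGT (show (0 : ℝ) < 1 by norm_num)] with r hr
    exact key r hr.1 hr.2)
  simpa using h

/-- the main inequality: on a rank-one segment from a matrix of positive to a matrix of negative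
determinant -/
theorem seg_ineq {W : M2 → ℝ} (hW : RankOneConvex W) (hn : ∀ F : M2, F.det = 0 → 0 ≤ W F)
    {A B : M2} (hA : 0 < A.det) (hB : B.det < 0) (hAB : (A - B).det = 0) :
    0 ≤ -B.det * W A + A.det * W B := by
  have hs : 0 < A.det - B.det := by linarith
  set t : ℝ := A.det / (A.det - B.det) with ht
  have ht0 : 0 ≤ t := by positivity
  have ht1 : t ≤ 1 := by rw [ht, div_le_one hs]; linarith
  have hd : (B - A).det = 0 := by
    have : B - A = -(A - B) := by abel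
    rw [this, Matrix.det_neg, hAB, mul_zero]
  have h := hW.seg A (B - A) hd ht0 ht1
  rw [add_sub_cancel] at h
  have hz : (A + t • (B - A)).det = 0 := by
    have e : (A + t • (B - A)).det = (1 - t) * A.det + t * B.det + (t ^ 2 - t) * (B - A).det := by
      simp only [det_fin_two, Matrix.add_apply, Matrix.sub_apply, Matrix.smul_apply, smul_eq_mul]
      ring
    rw [e, hd, ht]
    field_simp
    ring
  have h1 := (hn _ hz).trans h
  have e2 : (1 - t) * W A + t * W B = (-B.det * W A + A.det * W B) / (A.det - B.det) := by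
    rw [ht]
    field_simp
    ring
  rw [e2, le_div_iff₀ hs, zero_mul] at h1
  exact h1

/-- the inequality for any two matrices with determinants of different signs -/
theorem pair_ineq {W : M2 → ℝ} (hW : RankOneConvex W) (hn : ∀ F : M2, F.det = 0 → 0 ≤ W F)
    (hr : ∀ r : ℝ, 0 < r → r < 1 → ∀ F, W (r • F) ≤ r ^ 2 * W F)
    {A B : M2} (hA : 0 < A.det) (hB : B.det < 0) :
    0 ≤ -B.det * W A + A.det * W B := by
  have hr' : ∀ r : ℝ, 0 < r → r ≤ 1 → ∀ F, W (r • F) ≤ r ^ 2 * W F := by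
    intro r h1 h2 F
    rcases h2.lt_or_eq with h | h
    · exact hr r h1 h F
    · subst h; simp
  -- the positive root of `det (t A - B)`
  set b : ℝ := A 0 0 * B 1 1 + A 1 1 * B 0 0 - A 0 1 * B 1 0 - A 1 0 * B 0 1 with hb
  have hdet : ∀ t : ℝ, (t • A - B).det = t ^ 2 * A.det - t * b + B.det := by
    intro t
    simp only [det_fin_two, Matrix.sub_apply, Matrix.smul_apply, smul_eq_mul, hb]
    ring
  have hD : 0 < b ^ 2 - 4 * A.det * B.det := by nlinarith [sq_nonneg b]
  set t : ℝ := (b + √(b ^ 2 - 4 * A.det * B.det)) / (2 * A.det) with ht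
  have hsq : √(b ^ 2 - 4 * A.det * B.det) ^ 2 = b ^ 2 - 4 * A.det * B.det := Real.sq_sqrt hD.le
  have hlt : -b < √(b ^ 2 - 4 * A.det * B.det) := by
    apply Real.lt_sqrt_of_sq_lt
    nlinarith
  have ht0 : 0 < t := by
    rw [ht]
    have : 0 < b + √(b ^ 2 - 4 * A.det * B.det) := by linarith
    positivity
  have hroot : (t • A - B).det = 0 := by
    rw [hdet, ht]
    field_simp
    nlinarith [hsq]
  rcases le_total t 1 with h | h
  · have h1 := seg_ineq hW hn (A := t • A) (B := B)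
      (by rw [det_smul]; simp only [Fintype.card_fin]; positivity) hB hroot
    have h2 := hr' t ht0 h A
    rw [det_smul] at h1
    simp only [Fintype.card_fin] at h1
    have h3 : 0 ≤ t ^ 2 * (-B.det * W A + A.det * W B) := by
      have : -B.det * W (t • A) ≤ -B.det * (t ^ 2 * W A) :=
        mul_le_mul_of_nonneg_left h2 (by linarith)
      nlinarith
    exact nonneg_of_mul_nonneg_right h3 (by positivity)
  · have hti : 0 < t⁻¹ := inv_pos.2 ht0
    have hroot' : (A - t⁻¹ • B).det = 0 := by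
      have e : A - t⁻¹ • B = t⁻¹ • (t • A - B) := by
        rw [smul_sub, smul_smul, inv_mul_cancel₀ ht0.ne', one_smul]
      rw [e, det_smul, hroot, mul_zero]
    have h1 := seg_ineq hW hn (A := A) (B := t⁻¹ • B) hA
      (by
        rw [det_smul]
        simp only [Fintype.card_fin]
        exact mul_neg_of_pos_of_neg (by positivity) hB) hroot'
    have h2 := hr' t⁻¹ hti (inv_le_one_of_one_le₀ h) B
    rw [det_smul] at h1
    simp only [Fintype.card_fin] at h1
    have h3 : 0 ≤ t⁻¹ ^ 2 * (-B.det * W A + A.det * W B) := by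
      have : A.det * W (t⁻¹ • B) ≤ A.det * (t⁻¹ ^ 2 * W B) :=
        mul_le_mul_of_nonneg_left h2 hA.le
      nlinarith
    exact nonneg_of_mul_nonneg_right h3 (by positivity)

/-- **Rank-one convex functions with `W(rF) ≤ r² W(F)` lie above a multiple of the determinant.** -/
theorem exists_kappa {W : M2 → ℝ} (hW : RankOneConvex W) (h0 : W 0 = 0)
    (hr : ∀ r : ℝ, 0 < r → r < 1 → ∀ F, W (r • F) ≤ r ^ 2 * W F) :
    ∃ κ : ℝ, ∀ F, κ * F.det ≤ W F := by
  have hn : ∀ F : M2, F.det = 0 → 0 ≤ W F := fun F hF => nonneg_of_det hW h0 hr hF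
  set S : Set ℝ := {x | ∃ A : M2, 0 < A.det ∧ x = W A / A.det} with hS
  have hne : S.Nonempty := ⟨_, 1, by simp, rfl⟩
  have hlow : ∀ B : M2, B.det < 0 → ∀ x ∈ S, W B / B.det ≤ x := by
    rintro B hB x ⟨A, hA, rfl⟩
    have h := pair_ineq hW hn hr hA hB
    rw [div_le_iff_of_neg hB, div_mul_eq_mul_div, div_le_iff₀ hA]
    linarith
  have hbdd : BddBelow S := by
    have hB : (!![1, 0; 0, -1] : M2).det < 0 := by simp [det_fin_two]
    exact ⟨_, fun x hx => hlow _ hB x hx⟩
  refine ⟨sInf S, fun F => ?_⟩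
  rcases lt_trichotomy F.det 0 with h | h | h
  · have h1 : W F / F.det ≤ sInf S := le_csInf hne (hlow F h)
    rw [div_le_iff_of_neg h] at h1
    exact h1
  · rw [h, mul_zero]
    exact hn F h
  · have h1 : sInf S ≤ W F / F.det := csInf_le hbdd ⟨F, h, rfl⟩
    rwa [le_div_iff₀ h] at h1

/-- joint continuity of continuous families of rank-one convex functions -/
theorem joint {Φ : ℝ → M2 → ℝ} (hRC : ∀ s, RankOneConvex (Φ s))
    (hc : ∀ F, Continuous (fun s => Φ s F)) : Continuous (fun p : ℝ × M2 => Φ p.1 p.2) := by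
  have c1 : ∀ a b c : ℝ, Continuous (fun q : ℝ × ℝ => Φ q.2 !![a, b; c, q.1]) := by
    intro a b c
    refine cont_step (fun d s => Φ s !![a, b; c, d]) (fun s => ?_) (fun d => hc _)
    have h := (hRC s).line !![a, b; c, 0] !![0, 0; 0, 1] (by simp [det_fin_two])
    have e : (fun t : ℝ => Φ s (!![a, b; c, 0] + t • !![0, 0; 0, 1])) =
        fun d => Φ s !![a, b; c, d] := by
      funext d; congr 1; ext i j; fin_cases i <;> fin_cases j <;> simp
    rwa [e] at h
  have c2 : ∀ a b : ℝ, Continuous (fun q : ℝ × ℝ × ℝ => Φ q.2.2 !![a, b; q.1, q.2.1]) := by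
    intro a b
    refine cont_step (fun c (q : ℝ × ℝ) => Φ q.2 !![a, b; c, q.1]) (fun q => ?_) (c1 a b)
    have h := (hRC q.2).line !![a, b; 0, q.1] !![0, 0; 1, 0] (by simp [det_fin_two])
    have e : (fun t : ℝ => Φ q.2 (!![a, b; 0, q.1] + t • !![0, 0; 1, 0])) =
        fun c => Φ q.2 !![a, b; c, q.1] := by
      funext c; congr 1; ext i j; fin_cases i <;> fin_cases j <;> simp
    rwa [e] at h
  have c3 : ∀ a : ℝ, Continuous (fun q : ℝ × ℝ × ℝ × ℝ =>
      Φ q.2.2.2 !![a, q.1; q.2.1, q.2.2.1]) := by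
    intro a
    refine cont_step (fun b (q : ℝ × ℝ × ℝ) => Φ q.2.2 !![a, b; q.1, q.2.1]) (fun q => ?_) (c2 a)
    have h := (hRC q.2.2).line !![a, 0; q.1, q.2.1] !![0, 1; 0, 0] (by simp [det_fin_two])
    have e : (fun t : ℝ => Φ q.2.2 (!![a, 0; q.1, q.2.1] + t • !![0, 1; 0, 0]))
        = fun b => Φ q.2.2 !![a, b; q.1, q.2.1] := by
      funext c; congr 1; ext i j; fin_cases i <;> fin_cases j <;> simp
    rwa [e] at h
  have c4 : Continuous (fun q : ℝ × ℝ × ℝ × ℝ × ℝ =>
      Φ q.2.2.2.2 !![q.1, q.2.1; q.2.2.1, q.2.2.2.1]) := by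
    refine cont_step (fun a (q : ℝ × ℝ × ℝ × ℝ) => Φ q.2.2.2 !![a, q.1; q.2.1, q.2.2.1])
      (fun q => ?_) c3
    have h := (hRC q.2.2.2).line !![0, q.1; q.2.1, q.2.2.1] !![1, 0; 0, 0] (by simp [det_fin_two])
    have e : (fun t : ℝ => Φ q.2.2.2 (!![0, q.1; q.2.1, q.2.2.1] + t • !![1, 0; 0, 0]))
        = fun a => Φ q.2.2.2 !![a, q.1; q.2.1, q.2.2.1] := by
      funext c; congr 1; ext i j; fin_cases i <;> fin_cases j <;> simp
    rwa [e] at h
  have hφ : Continuous (fun p : ℝ × M2 => ((p.2 0 0, p.2 0 1, p.2 1 0, p.2 1 1, p.1) :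
      ℝ × ℝ × ℝ × ℝ × ℝ)) := by
    fun_prop
  have := c4.comp hφ
  have e : (fun q : ℝ × ℝ × ℝ × ℝ × ℝ => Φ q.2.2.2.2 !![q.1, q.2.1; q.2.2.1, q.2.2.2.1]) ∘
      (fun p : ℝ × M2 => ((p.2 0 0, p.2 0 1, p.2 1 0, p.2 1 1, p.1) : ℝ × ℝ × ℝ × ℝ × ℝ)) =
      fun p => Φ p.1 p.2 := by
    funext p
    simp only [Function.comp]
    congr 1
    ext i j; fin_cases i <;> fin_cases j <;> rfl
  rwa [e] at this

theorem isCompact_sphere : IsCompact {F : M2 | N F = 1} := by
  have hcl : IsClosed {F : M2 | N F = 1} := isClosed_eq N_continuous continuous_const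
  have hK : IsCompact (Set.pi univ fun _ : Fin 2 => Set.pi univ fun _ : Fin 2 =>
      Icc (-1 : ℝ) 1) := isCompact_univ_pi fun _ => isCompact_univ_pi fun _ => isCompact_Icc
  refine hK.of_isClosed_subset hcl fun F hF => ?_
  have hF' : F 0 0 ^ 2 + F 0 1 ^ 2 + F 1 0 ^ 2 + F 1 1 ^ 2 = 1 := hF
  have a1 : |F 0 0| ≤ 1 := by
    rw [← sq_le_one_iff_abs_le_one]; nlinarith [sq_nonneg (F 0 1), sq_nonneg (F 1 0), sq_nonneg (F 1 1)]
  have a2 : |F 0 1| ≤ 1 := by
    rw [← sq_le_one_iff_abs_le_one]; nlinarith [sq_nonneg (F 0 0), sq_nonneg (F 1 0), sq_nonneg (F 1 1)]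
  have a3 : |F 1 0| ≤ 1 := by
    rw [← sq_le_one_iff_abs_le_one]; nlinarith [sq_nonneg (F 0 1), sq_nonneg (F 0 0), sq_nonneg (F 1 1)]
  have a4 : |F 1 1| ≤ 1 := by
    rw [← sq_le_one_iff_abs_le_one]; nlinarith [sq_nonneg (F 0 1), sq_nonneg (F 1 0), sq_nonneg (F 0 0)]
  intro i _ j _
  fin_cases i <;> fin_cases j
  · exact abs_le.1 a1
  · exact abs_le.1 a2
  · exact abs_le.1 a3
  · exact abs_le.1 a4

/-- uniform lower bound near the parameter `0` -/
theorem uniform {Φ : ℝ → M2 → ℝ} (hRC : ∀ s, RankOneConvex (Φ s))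
    (hc : ∀ F, Continuous (fun s => Φ s F)) {κ ε : ℝ} (hε : 0 < ε)
    (hκ : ∀ F, κ * F.det ≤ Φ 0 F) :
    ∃ δ > 0, ∀ s, 0 < s → s ≤ δ → ∀ F, N F = 1 → κ * F.det - ε ≤ Φ s F := by
  have hj := joint hRC hc
  have hev : ∀ᶠ s in 𝓝 (0 : ℝ), ∀ F ∈ {F : M2 | N F = 1}, κ * F.det - ε < Φ s F := by
    refine isCompact_sphere.eventually_forall_of_forall_eventually
      (P := fun s F => κ * F.det - ε < Φ s F) fun F _ => ?_
    have hL : Continuous fun p : ℝ × M2 => κ * p.2.det - ε := by fun_prop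
    have hlt : (fun p : ℝ × M2 => κ * p.2.det - ε) (0, F) < (fun p : ℝ × M2 => Φ p.1 p.2) (0, F) := by
      have := hκ F
      show κ * F.det - ε < Φ 0 F
      linarith
    exact hL.continuousAt.eventually_lt hj.continuousAt hlt
  obtain ⟨δ, hδ, h⟩ := Metric.eventually_nhds_iff.1 hev
  refine ⟨δ / 2, by positivity, fun s hs hsδ F hF => (h ?_ F hF).le⟩
  rw [Real.dist_eq, sub_zero, abs_of_pos hs]
  linarith

end Pool.Agent.H64.TH
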