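import Pool.Agent.H64.TH.Core

/-! # Blow-ups at a point and at infinity -/

set_option autoImplicit false

open Matrix Set Filter Topology MeasureTheory
open Pool.Agent.Helper188.Morrey (RankOneConvex rank_eq_one_of_det det_eq_zero_of_rank grad
  integrable_comp)
open Pool.Agent.W5h27.MO (cf det_add_eq integral_null)
open scoped NNReal

namespace Pool.Agent.H64.TH

theorem rc_of_tendsto {ι : Type*} {f : Filter ι} [NeBot f] {Φ : ι → M2 → ℝ} {W₂ : M2 → ℝ}
    (h : ∀ᶠ i in f, RankOneConvex (Φ i)) (hl : ∀ F, Tendsto (fun i => Φ i F) f (𝓝 (W₂ F))) :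
    RankOneConvex W₂ := by
  intro F H hH t h0 h1
  refine le_of_tendsto_of_tendsto (hl _) (((hl F).const_mul _).add ((hl (F + H)).const_mul _)) ?_
  filter_upwards [h] with i hi
  exact hi F H hH t h0 h1

theorem cont_glue {g : ℝ → ℝ} {a : ℝ} (hg : ContinuousOn g (Ioi 0))
    (hl : Tendsto g (𝓝[>] 0) (𝓝 a)) : Continuous (fun s => if s ≤ 0 then a else g s) := by
  rw [continuous_iff_continuousAt]
  intro s
  rcases lt_trichotomy s 0 with h | h | h
  · have : (fun s => if s ≤ 0 then a else g s) =ᶠ[𝓝 s] fun _ => a := by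
      filter_upwards [Iio_mem_nhds h] with x hx
      rw [if_pos (le_of_lt hx)]
    exact this.continuousAt
  · subst h
    show Tendsto _ _ (𝓝 (if (0 : ℝ) ≤ 0 then a else g 0))
    rw [if_pos le_rfl, ← nhdsLE_sup_nhdsGT, tendsto_sup]
    constructor
    · refine (tendsto_const_nhds (x := a)).congr' ?_
      filter_upwards [self_mem_nhdsWithin] with x hx
      rw [if_pos (mem_Iic.1 hx)]
    · refine hl.congr' ?_
      filter_upwards [self_mem_nhdsWithin] with x hx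
      rw [if_neg (not_le.2 hx)]
  · have h1 : (fun s => if s ≤ 0 then a else g s) =ᶠ[𝓝 s] g := by
      filter_upwards [Ioi_mem_nhds h] with x hx
      rw [if_neg (not_le.2 hx)]
    exact (hg.continuousAt (Ioi_mem_nhds h)).congr h1.symm

/-- rank-one convexity of the rescaled function at a point -/
theorem rc_blow {W : M2 → ℝ} (hW : RankOneConvex W) (F₀ : M2) (l : M2 →ₗ[ℝ] ℝ) (s : ℝ) :
    RankOneConvex fun F => (W (F₀ + s • F) - W F₀ - s * l F) / s ^ 2 := by
  intro F H hH t h0 h1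
  have hd : (s • H).det = 0 := by rw [det_smul, det_eq_zero_of_rank hH.le, mul_zero]
  have h := hW.seg (F₀ + s • F) (s • H) hd h0 h1
  have e1 : F₀ + s • ((1 - t) • F + t • (F + H)) = F₀ + s • F + t • s • H := by module
  have e2 : F₀ + s • (F + H) = F₀ + s • F + s • H := by module
  have e3 : l ((1 - t) • F + t • (F + H)) = (1 - t) * l F + t * l (F + H) := by
    rw [map_add, map_smul, map_smul, smul_eq_mul, smul_eq_mul]
  simp only [e1, e2, e3]
  rw [mul_div_assoc', mul_div_assoc', ← add_div]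
  refine div_le_div_of_nonneg_right ?_ (sq_nonneg s)
  linarith

/-- rank-one convexity of the rescaled function at infinity -/
theorem rc_down {W : M2 → ℝ} (hW : RankOneConvex W) (s : ℝ) :
    RankOneConvex fun F => s ^ 2 * W (s⁻¹ • F) := by
  intro F H hH t h0 h1
  have hd : (s⁻¹ • H).det = 0 := by rw [det_smul, det_eq_zero_of_rank hH.le, mul_zero]
  have h := hW.seg (s⁻¹ • F) (s⁻¹ • H) hd h0 h1
  have e1 : s⁻¹ • ((1 - t) • F + t • (F + H)) = s⁻¹ • F + t • s⁻¹ • H := by module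
  have e2 : s⁻¹ • (F + H) = s⁻¹ • F + s⁻¹ • H := by module
  simp only [e1, e2]
  have h2 : s ^ 2 * W (s⁻¹ • F + t • s⁻¹ • H) ≤
      s ^ 2 * ((1 - t) * W (s⁻¹ • F) + t * W (s⁻¹ • F + s⁻¹ • H)) :=
    mul_le_mul_of_nonneg_left h (sq_nonneg s)
  linarith

theorem exists_kappa_of_hom {W : M2 → ℝ} (hW : RankOneConvex W) (h0 : W 0 = 0)
    (hr : ∀ r : ℝ, 0 < r → ∀ F, W (r • F) = r ^ 2 * W F) :
    ∃ κ : ℝ, ∀ F, κ * F.det ≤ W F :=
  exists_kappa hW h0 fun r h1 _ F => (hr r h1 F).le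

/-- the second-order behaviour at a point -/
theorem local_bound {W W₂ : M2 → ℝ} (hW : RankOneConvex W) (F₀ : M2) (l : M2 →ₗ[ℝ] ℝ)
    (hl : ∀ H, Tendsto (fun s : ℝ => (W (F₀ + s • H) - W F₀ - s * l H) / s ^ 2) (𝓝[>] 0)
      (𝓝 (W₂ H))) :
    ∃ κ : ℝ, (∀ F, κ * F.det ≤ W₂ F) ∧ ∀ ε > 0, ∃ δ > 0, ∀ H, N H ≤ δ ^ 2 →
      W F₀ + l H + κ * H.det - ε * N H ≤ W (F₀ + H) := by
  have hc := hW.continuous
  have hlc : Continuous l := LinearMap.continuous_of_finiteDimensional l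
  have h2 : RankOneConvex W₂ := rc_of_tendsto (Eventually.of_forall fun s => rc_blow hW F₀ l s) hl
  have h20 : W₂ 0 = 0 := by
    refine tendsto_nhds_unique (hl 0) ?_
    simp
  have h2r : ∀ r : ℝ, 0 < r → ∀ F, W₂ (r • F) = r ^ 2 * W₂ F := by
    intro r hr F
    have hmul : Tendsto (fun s : ℝ => s * r) (𝓝[>] 0) (𝓝[>] 0) := by
      refine tendsto_nhdsWithin_iff.2 ⟨?_, ?_⟩
      · have : Tendsto (fun s : ℝ => s * r) (𝓝 0) (𝓝 (0 * r)) :=
          (continuous_id.mul continuous_const).tendsto 0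
        rw [zero_mul] at this
        exact this.mono_left nhdsWithin_le_nhds
      · filter_upwards [self_mem_nhdsWithin] with s hs
        exact mul_pos hs hr
    refine tendsto_nhds_unique (hl (r • F)) ((((hl F).comp hmul).const_mul (r ^ 2)).congr' ?_)
    filter_upwards [self_mem_nhdsWithin] with s hs
    have hs' : s ≠ 0 := (ne_of_gt hs)
    simp only [Function.comp, smul_smul, map_smul, smul_eq_mul]
    field_simp
  obtain ⟨κ, hκ⟩ := exists_kappa_of_hom h2 h20 h2r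
  refine ⟨κ, hκ, fun ε hε => ?_⟩
  obtain ⟨δ, hδ, h⟩ := uniform
    (Φ := fun s F => if s ≤ 0 then W₂ F else (W (F₀ + s • F) - W F₀ - s * l F) / s ^ 2)
    (fun s => by
      by_cases hs : s ≤ 0
      · simp only [if_pos hs]; exact h2
      · simp only [if_neg hs]; exact rc_blow hW F₀ l s)
    (fun F => by
      refine cont_glue (g := fun s => (W (F₀ + s • F) - W F₀ - s * l F) / s ^ 2) ?_ (hl F)
      refine ContinuousOn.div ?_ ?_ ?_
      · have : Continuous fun s : ℝ => W (F₀ + s • F) - W F₀ - s * l F := by fun_prop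
        exact this.continuousOn
      · fun_prop
      · intro s hs
        have : s ≠ 0 := ne_of_gt hs
        positivity)
    hε (κ := κ) (fun F => by simp only [le_refl, if_true]; exact hκ F)
  refine ⟨δ, hδ, fun H hH => ?_⟩
  by_cases hN : N H = 0
  · rw [N_eq_zero hN]
    simp [N]
  have hN0 : 0 < N H := lt_of_le_of_ne (N_nonneg H) (Ne.symm hN)
  set s : ℝ := √(N H) with hs
  have hs0 : 0 < s := Real.sqrt_pos.2 hN0
  have hs2 : s ^ 2 = N H := Real.sq_sqrt hN0.le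
  have hsδ : s ≤ δ := by
    rw [hs]; exact (Real.sqrt_le_left hδ.le).2 hH
  have h1 := h s hs0 hsδ (s⁻¹ • H) (by
    rw [N_smul, ← hs2]; field_simp)
  simp only [if_neg (not_le.2 hs0)] at h1
  rw [le_div_iff₀ (by positivity), smul_smul, mul_inv_cancel₀ hs0.ne', one_smul, map_smul,
    smul_eq_mul, det_smul] at h1
  simp only [Fintype.card_fin] at h1
  have e1 : (κ * (s⁻¹ ^ 2 * H.det) - ε) * s ^ 2 = κ * H.det - ε * N H := by
    rw [← hs2]; field_simp
  have e2 : s * (s⁻¹ * l H) = l H := by field_simp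
  rw [e1, e2] at h1
  linarith

/-- the second-order behaviour at infinity -/
theorem infinity_bound {W W₂ : M2 → ℝ} (hW : RankOneConvex W)
    (hl : ∀ F, Tendsto (fun t : ℝ => W (t • F) / t ^ 2) atTop (𝓝 (W₂ F))) :
    ∃ κ : ℝ, (∀ F, κ * F.det ≤ W₂ F) ∧ ∀ ε > 0, ∃ C : ℝ, ∀ F,
      κ * F.det - ε * N F - C ≤ W F := by
  have hc := hW.continuous
  have hl' : ∀ F, Tendsto (fun s : ℝ => s ^ 2 * W (s⁻¹ • F)) (𝓝[>] 0) (𝓝 (W₂ F)) := by
    intro F
    refine ((hl F).comp tendsto_inv_nhdsGT_zero).congr fun s => ?_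
    simp only [Function.comp, inv_pow, div_inv_eq_mul]
    ring
  have h2 : RankOneConvex W₂ := rc_of_tendsto (Eventually.of_forall fun s => rc_down hW s) hl'
  have h20 : W₂ 0 = 0 := by
    refine tendsto_nhds_unique (hl' 0) ?_
    have : Continuous fun s : ℝ => s ^ 2 * W 0 := by fun_prop
    have h3 := (this.tendsto 0).mono_left (nhdsWithin_le_nhds (s := Ioi 0))
    simpa using h3
  have h2r : ∀ r : ℝ, 0 < r → ∀ F, W₂ (r • F) = r ^ 2 * W₂ F := by
    intro r hr F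
    have hmul : Tendsto (fun t : ℝ => t * r) atTop atTop := tendsto_id.atTop_mul_const hr
    refine tendsto_nhds_unique (hl (r • F)) ((((hl F).comp hmul).const_mul (r ^ 2)).congr' ?_)
    filter_upwards [eventually_gt_atTop 0] with s hs
    have hs' : s ≠ 0 := (ne_of_gt hs)
    simp only [Function.comp, smul_smul]
    field_simp
  obtain ⟨κ, hκ⟩ := exists_kappa_of_hom h2 h20 h2r
  refine ⟨κ, hκ, fun ε hε => ?_⟩
  obtain ⟨δ, hδ, h⟩ := uniform
    (Φ := fun s F => if s ≤ 0 then W₂ F else s ^ 2 * W (s⁻¹ • F))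
    (fun s => by
      by_cases hs : s ≤ 0
      · simp only [if_pos hs]; exact h2
      · simp only [if_neg hs]; exact rc_down hW s)
    (fun F => by
      refine cont_glue (g := fun s => s ^ 2 * W (s⁻¹ • F)) ?_ (hl' F)
      refine ContinuousOn.mul (by fun_prop) (hc.comp_continuousOn ?_)
      refine ContinuousOn.smul (continuousOn_inv₀.mono ?_) continuousOn_const
      intro s hs
      exact ne_of_gt hs)
    hε (κ := κ) (fun F => by simp only [le_refl, if_true]; exact hκ F)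
  -- on the ball
  have hbd : ∃ C : ℝ, 0 ≤ C ∧ ∀ F, N F ≤ δ⁻¹ ^ 2 → κ * F.det - C ≤ W F := by
    have hK : IsCompact {F : M2 | N F ≤ δ⁻¹ ^ 2} := by
      have hcl : IsClosed {F : M2 | N F ≤ δ⁻¹ ^ 2} := isClosed_le N_continuous continuous_const
      have hK : IsCompact (Set.pi univ fun _ : Fin 2 => Set.pi univ fun _ : Fin 2 =>
          Icc (-δ⁻¹ : ℝ) δ⁻¹) := isCompact_univ_pi fun _ => isCompact_univ_pi fun _ => isCompact_Icc
      refine hK.of_isClosed_subset hcl fun F hF => ?_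
      have hF' : F 0 0 ^ 2 + F 0 1 ^ 2 + F 1 0 ^ 2 + F 1 1 ^ 2 ≤ δ⁻¹ ^ 2 := hF
      have hδi : 0 ≤ δ⁻¹ := by positivity
      have a1 : |F 0 0| ≤ δ⁻¹ := abs_le_of_sq_le_sq
        (by nlinarith [sq_nonneg (F 0 1), sq_nonneg (F 1 0), sq_nonneg (F 1 1)]) hδi
      have a2 : |F 0 1| ≤ δ⁻¹ := abs_le_of_sq_le_sq
        (by nlinarith [sq_nonneg (F 0 0), sq_nonneg (F 1 0), sq_nonneg (F 1 1)]) hδi
      have a3 : |F 1 0| ≤ δ⁻¹ := abs_le_of_sq_le_sq
        (by nlinarith [sq_nonneg (F 0 1), sq_nonneg (F 0 0), sq_nonneg (F 1 1)]) hδi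
      have a4 : |F 1 1| ≤ δ⁻¹ := abs_le_of_sq_le_sq
        (by nlinarith [sq_nonneg (F 0 1), sq_nonneg (F 1 0), sq_nonneg (F 0 0)]) hδi
      intro i _ j _
      fin_cases i <;> fin_cases j
      · exact abs_le.1 a1
      · exact abs_le.1 a2
      · exact abs_le.1 a3
      · exact abs_le.1 a4
    have hcont : Continuous fun F : M2 => W F - κ * F.det := by fun_prop
    obtain ⟨m, hm⟩ := hK.bddBelow_image hcont.continuousOn
    refine ⟨max (-m) 0, le_max_right _ _, fun F hF => ?_⟩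
    have h1 : m ≤ W F - κ * F.det := hm ⟨F, hF, rfl⟩
    have h2 : -m ≤ max (-m) 0 := le_max_left _ _
    linarith
  obtain ⟨C, hC0, hC⟩ := hbd
  refine ⟨C, fun F => ?_⟩
  by_cases hF : N F ≤ δ⁻¹ ^ 2
  · have h1 := hC F hF
    have h2 := mul_nonneg hε.le (N_nonneg F)
    linarith
  · have hF' : δ⁻¹ ^ 2 < N F := not_le.1 hF
    have hN0 : 0 < N F := lt_of_le_of_lt (by positivity) hF'
    set s : ℝ := (√(N F))⁻¹ with hs
    have hq : 0 < √(N F) := Real.sqrt_pos.2 hN0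
    have hs0 : 0 < s := inv_pos.2 hq
    have hs2 : s ^ 2 * N F = 1 := by
      rw [hs, inv_pow, Real.sq_sqrt hN0.le, inv_mul_cancel₀ hN0.ne']
    have hsδ : s ≤ δ := by
      rw [hs, inv_le_comm₀ hq hδ]
      exact (Real.lt_sqrt_of_sq_lt hF').le
    have h1 := h s hs0 hsδ (s • F) (by rw [N_smul, hs2])
    simp only [if_neg (not_le.2 hs0)] at h1
    rw [smul_smul, inv_mul_cancel₀ hs0.ne', one_smul, det_smul] at h1
    simp only [Fintype.card_fin] at h1
    have h3 : s ^ 2 * (κ * F.det - ε * N F) ≤ s ^ 2 * W F := by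
      have : s ^ 2 * (κ * F.det - ε * N F) = κ * (s ^ 2 * F.det) - ε * (s ^ 2 * N F) := by ring
      rw [this, hs2]
      linarith
    have h4 := le_of_mul_le_mul_left h3 (by positivity)
    linarith

/-- the superquadratic case -/
theorem super_bound {W : M2 → ℝ} (hW : RankOneConvex W) (F₀ : M2) (l : M2 →ₗ[ℝ] ℝ)
    (h : ∀ H, ∀ r : ℝ, 0 < r → r < 1 →
      W (F₀ + r • H) - W F₀ - r * l H ≤ r ^ 2 * (W (F₀ + H) - W F₀ - l H)) :
    ∃ κ : ℝ, ∀ H, W F₀ + l H + κ * H.det ≤ W (F₀ + H) := by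
  have h1 := rc_blow hW F₀ l 1
  simp only [one_smul, one_mul, one_pow, div_one] at h1
  obtain ⟨κ, hκ⟩ := exists_kappa h1 (by simp) (fun r h1 h2 F => by
    have := h F r h1 h2
    rw [map_smul, smul_eq_mul]
    exact this)
  exact ⟨κ, fun H => by have := hκ H; linarith⟩

variable {ϑ : (Fin 2 → ℝ) → (Fin 2 → ℝ)} {Ω : Set (Fin 2 → ℝ)}

/-- integration of a lower bound by a null Lagrangian with an error term -/
theorem integral_bound {W : M2 → ℝ} (hc : Continuous W) (F₀ : M2) (l : M2 →ₗ[ℝ] ℝ) (κ A : ℝ)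
    (E : M2 → ℝ) (hE : Continuous E) {K : ℝ≥0} (hK : LipschitzWith K ϑ) (hΩ : IsOpen Ω)
    (hb : Bornology.IsBounded Ω) (h0 : ∀ x, x ∉ Ω → ϑ x = 0)
    (h : ∀ᵐ x ∂(volume.restrict Ω),
      A + l (F₀ + grad ϑ x) + κ * (F₀ + grad ϑ x).det - E (grad ϑ x) ≤ W (F₀ + grad ϑ x)) :
    (A + l F₀ + κ * F₀.det) * (volume Ω).toReal - ∫ x in Ω, E (grad ϑ x) ≤
      ∫ x in Ω, W (F₀ + grad ϑ x) := by
  obtain ⟨i1, i2⟩ := integral_null hK hΩ hb h0 F₀ A κ l
  have i3 : Integrable (fun x => E (grad ϑ x)) (volume.restrict Ω) := integrable_comp hK hb hE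
  have i4 : Integrable (fun x => W (F₀ + grad ϑ x)) (volume.restrict Ω) :=
    integrable_comp hK hb (φ := fun G => W (F₀ + G)) (by fun_prop)
  rw [← i2, ← integral_sub i1 i3]
  exact integral_mono_ae (i1.sub i3) i4 h

theorem det_sub_eq (F₀ F : M2) : (F - F₀).det = F₀.det - cf F₀ F + F.det := by
  simp only [det_fin_two, cf, Matrix.sub_apply, LinearMap.coe_mk, AddHom.coe_mk]
  ring

theorem cf_self (F₀ : M2) : cf F₀ F₀ = 2 * F₀.det := by
  simp only [det_fin_two, cf, LinearMap.coe_mk, AddHom.coe_mk]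
  ring

/-- the Morrey inequality at `F₀` with an error -/
theorem morrey_err {W : M2 → ℝ} (hc : Continuous W) (F₀ : M2) (l : M2 →ₗ[ℝ] ℝ) (κ : ℝ)
    (E : M2 → ℝ) (hE : Continuous E) {K : ℝ≥0} (hK : LipschitzWith K ϑ) (hΩ : IsOpen Ω)
    (hb : Bornology.IsBounded Ω) (h0 : ∀ x, x ∉ Ω → ϑ x = 0)
    (h : ∀ᵐ x ∂(volume.restrict Ω),
      W F₀ + l (grad ϑ x) + κ * (grad ϑ x).det - E (grad ϑ x) ≤ W (F₀ + grad ϑ x)) :
    W F₀ * (volume Ω).toReal - ∫ x in Ω, E (grad ϑ x) ≤ ∫ x in Ω, W (F₀ + grad ϑ x) := by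
  have e : ∀ F : M2, W F₀ + l F + κ * F.det = (W F₀ - l F₀ + κ * F₀.det) +
      (l - κ • cf F₀) (F₀ + F) + κ * (F₀ + F).det := by
    intro F
    have h1 := det_sub_eq F₀ (F₀ + F)
    rw [add_sub_cancel_left] at h1
    rw [LinearMap.sub_apply, LinearMap.smul_apply, smul_eq_mul, h1]
    simp only [map_add]
    ring
  have h1 := integral_bound hc F₀ (l - κ • cf F₀) κ (W F₀ - l F₀ + κ * F₀.det) E hE hK hΩ hb h0
    (by
      filter_upwards [h] with x hx
      rw [← e]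
      exact hx)
  have e2 : W F₀ - l F₀ + κ * F₀.det + (l - κ • cf F₀) F₀ + κ * F₀.det = W F₀ := by
    rw [LinearMap.sub_apply, LinearMap.smul_apply, smul_eq_mul, cf_self]
    ring
  rwa [e2] at h1

end Pool.Agent.H64.TH
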